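import Pool.Agent.H44.V0P.Par
import Pool.Agent.H44.V0F.Evg

/-!
# Two samples of one cell, for a pair

`celP : CelPStmt`.
-/

set_option autoImplicit false

namespace Pool.V0Q

open Finset Real MvPolynomial
open Pool.Agent.H49.Ent Pool.Agent.H32.Dense
open Pool.STK hiding pr2
open Pool.KA Pool.KSAT Pool.K2S Pool.PB Pool.S6C
open Pool.GEN Pool.CHT Pool.CHX Pool.ISO Pool.LA91 Pool.AVG71 Pool.AVG5 Pool.D2F2 Pool.AVG57
open Pool.RCD Pool.AVG96 Pool.OWN68 Pool.V0F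
open Pool.AJW (CfB)
open Pool.D2R (WinB gnh hgt winb_cell)

/-- `2 ^ 2 / 2 ^ b ≤ 1 / 2 ^ a`. -/
theorem four_div {a b : ℕ} (h : a + 2 ≤ b) : (2 : ℝ) ^ 2 / 2 ^ b ≤ 1 / 2 ^ a := by
  rw [div_le_div_iff₀ (by positivity) (by positivity), one_mul, ← pow_add]
  exact pow_le_pow_right₀ (by norm_num) (by omega)

/-- **Two samples of one cell.** -/
theorem celP : CelPStmt := by
  intro m D k
  obtain ⟨Cc, hCc, Hc⟩ := winb_cell m D (k + 1)
  refine ⟨Cc, hCc, ?_⟩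
  intro s sn Gs b o φ w u y ξ T Λ C κ₀ e lam jw xw x' xr xq w₁ vq oq xa J F c Dr N M C₀ a Eb ηm ow
    η σ lv bb κ z A g₀ G H kb kw mm W Nn hinj hkb hkw hob how hlv hC hEb hzb hzw big hCu hmm ω ν
    hω hν hpt
  obtain ⟨b1, b2, b3, b4, b5, b6, b7, b8, b9, b10, b11, b12, b13, b14, b15, b16, b17⟩ := Nn.wb
  obtain ⟨h1, h2, h3, h4, h5, h6, h7, h8, h9, h10⟩ := Nn.sm
  obtain ⟨d1, d2⟩ := Nn.ξu
  have hJ : (0 : ℝ) ≤ J := Nat.cast_nonneg J
  have hs := Nn.s1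
  have hu := Nn.u0
  have hyu := Nn.yu
  have hT := Nn.Tu0
  have hru := Nn.ru0
  have hroom := Nn.room
  have hbw := Nn.bw
  have hy0 := Nn.y0
  have mj : ∀ {a a' : ℝ}, a ≤ a' → a * J ≤ a' * J := fun h => mul_le_mul_of_nonneg_right h hJ
  have hηm0 : 0 ≤ ηm := (W.hη _ hkb).1.trans (W.hη _ hkb).2
  have hηφ : ηm ≤ φ := (le_mul_of_one_le_left hηm0 W.C1).trans hC
  obtain ⟨Y, hY⟩ : ∃ Y : ℕ, Y = ⌈φ * (J : ℝ)⌉₊ := ⟨_, rfl⟩
  have hY1 : φ * J ≤ Y := by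
    rw [hY]
    exact Nat.le_ceil _
  have hY2 : (Y : ℝ) ≤ φ * J + 1 := by
    rw [hY]
    exact (Nat.ceil_lt_add_one (by linarith)).le
  have hCY : (Cc : ℝ) * Y ≤ u * J := by
    have e1 : (Cc : ℝ) * Y ≤ Cc * (2 * φ * J) :=
      mul_le_mul_of_nonneg_left (by linarith) (Nat.cast_nonneg _)
    have e2 := mj hCu
    linarith
  have hC0 : C₀ * (ηm * J) ≤ Y := by
    have e1 := mj hC
    have e2 : C₀ * (ηm * J) = C₀ * ηm * J := by ring
    rw [e2]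
    linarith
  have hY3 : 1 ≤ Y := by
    have : (1 : ℝ) ≤ Y := by linarith
    exact_mod_cast this
  have e2 := Nat.floor_le (show 0 ≤ (u + 500 * y) * (J : ℝ) from mul_nonneg (by linarith) hJ)
  have e3 := Nat.floor_le (show 0 ≤ ξ * u * (J : ℝ) from mul_nonneg d1.le hJ)
  have hT' : 240 * u ≤ Λ * u := by linarith
  have huJ : 0 ≤ u * (J : ℝ) := mul_nonneg hu.le hJ
  have hyuJ : 4000 * y * J ≤ u * J := mj hyu
  have hξuJ : ξ * u * J ≤ u * J := mj d2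
  have hφuJ : φ * J ≤ u * J := mj (by linarith)
  have hφ1 : 1 ≤ φ * J := by linarith
  refine ⟨fun l hl => ?_, ?_⟩
  · obtain ⟨q, hq⟩ : ∃ q : ℕ, q = ⌈(w - b + 4 * φ) * (J : ℝ)⌉₊ + (⌊(u + 500 * y) * J⌋₊ +
        (⌊ξ * u * J⌋₊ + mm) + 2) := ⟨_, rfl⟩
    have hq1 : (w - b + 4 * φ) * J + ((⌊(u + 500 * y) * J⌋₊ + (⌊ξ * u * J⌋₊ + mm) + 2 : ℕ) : ℝ) ≤
        q := by
      rw [hq]
      push_cast
      have := Nat.le_ceil ((w - b + 4 * φ) * (J : ℝ))
      linarith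
    have hq2 : (q : ℝ) ≤ (w - b + 4 * φ) * J + 3 + 4 * (u * J) := by
      rw [hq]
      push_cast
      have e1 := (Nat.ceil_lt_add_one (show 0 ≤ (w - b + 4 * φ) * (J : ℝ) from
        mul_nonneg (by linarith) hJ)).le
      linarith
    obtain ⟨jq, hjq, jT, hjT, hz1, hz2⟩ := hzb
    have hl' : ∀ l ≤ k + 1, sn l b + (w - b) ≤ sn l w + 2 * φ := by
      intro l hl
      rcases Nat.lt_or_ge l k with h | h
      · have e1 := Nn.slv h Nn.bG le_rfl b3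
        linarith
      · have e1 := Nn.stv h hl Nn.bG le_rfl b3
        have e2 : 1 * (w - b) ≤ s * (w - b) := mul_le_mul_of_nonneg_right hs.le (by linarith)
        linarith
    have h7 := Hc W (k₀ := kb) (jq := jq) (jT := jT) (q := q) (Y := Y) hinj hkb hjq hjT hz2 hC0
      hY3 (fun l hl => by
        rw [hlv _ hkb l hl, hob]
        have e1 := hl' l hl
        have e2 := hEb l hl
        have e3 := mj (show Eb + sn l b + (w - b) + 240 * u ≤ 1 + 2 * φ by linarith)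
        linarith) ω ν hω hν hpt l (by omega)
    refine h7.trans (four_div ?_)
    obtain ⟨-, -, g1, -⟩ := W.g_num hkb (show l ≤ k + 1 by omega)
    obtain ⟨-, -, -, g2⟩ := W.g_num hkw (show l ≤ k + 1 by omega)
    rw [hlv _ hkb l (by omega), hob] at g1
    rw [hlv _ hkw l (by omega), how] at g2
    have e1 := Nn.slv hl Nn.bG le_rfl b3
    have e2 := mj hηφ
    have e3 := mj (show sn l w + φ ≤ sn l b + (w - b + 4 * φ) by linarith)
    have e4 : ((g₀ kw l + ⌊(u + 500 * y) * J⌋₊ + (⌊ξ * u * J⌋₊ + mm) + 2 : ℕ) : ℝ) ≤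
        ((g₀ kb l + q : ℕ) : ℝ) := by
      push_cast at hq1 ⊢
      linarith
    exact_mod_cast e4
  · obtain ⟨jq, hjq, jT, hjT, hz1, hz2⟩ := hzw
    have h7 := Hc W (k₀ := kw) (jq := jq) (jT := jT)
      (q := ⌊(u + 500 * y) * J⌋₊ + ⌊ξ * u * J⌋₊ + 2) (Y := Y) hinj hkw hjq hjT hz2 hC0
      hY3 (fun l hl => by
        rw [hlv _ hkw l hl, how]
        have e2 := hEb l hl
        have e3 := mj (show Eb + sn l w + 240 * u ≤ 1 by linarith)
        push_cast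
        linarith) ω ν hω hν hpt k (by omega)
    exact h7.trans (four_div (by omega))

end Pool.V0Q
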