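import Pool.Agent.H44.V0P.Par
import Pool.Agent.H44.V0F.Evg

/-!
# The gradients of a pair on one event

`GfrW`: `GfrStmt` with the premise on the slopes of all places between the direction and the target.
`grdP : GfrW → GrdPStmt`.
-/

set_option autoImplicit false

namespace Pool.V0Q

open Finset Real MvPolynomial
open Pool.Agent.H49.Ent Pool.Agent.H32.Dense
open Pool.STK hiding pr2
open Pool.KA Pool.KSAT Pool.K2S Pool.PB Pool.S6C
open Pool.GEN Pool.CHT Pool.CHX Pool.ISO Pool.LA91 Pool.AVG71 Pool.AVG5 Pool.D2F2 Pool.AVG57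
open Pool.RCD Pool.AVG96 Pool.OWN68 Pool.V0F
open Pool.AJW (CfB)
open Pool.D2R (WinB gnh hgt hyb hyb_lo hyb_hi chs chs_eq v0_grd winb_cell)
open Pool.LV64 (GrdV NrH)

/-- **(GFR)**, the bounds with the premise on all places between. -/
def GfrW : Prop := ∀ D D' r : ℕ, ∃ C : ℕ, 1 ≤ C ∧ ∀ {m J : ℕ} {F : Fam m J} {c : ℕ → Fin m}
    {Dr N M : ℕ} {C₀ a Eb ηm : ℝ} {o η σ : ℕ → ℝ} {lv b : ℕ → ℕ → ℝ} {κ : ℝ}
    {z : ℕ → ℕ → ℕ} {B : F.Ω → Prop} {g₀ : ℕ → ℕ → ℕ}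
    {G : ℕ → PtT F → ℕ → MvPolynomial (Option (Fin m)) ℝ}
    {H : ℕ → LnT F → ℕ → MvPolynomial (Option (Fin m)) ℝ}
    (_ : WinB F c r D Dr N M C₀ a Eb ηm o η σ lv b κ z B g₀ G H)
    {GN : PtT F → MvPolynomial (Option (Fin m)) ℝ} {κN : F.Ω → ℝ}
    {fb jb f jj : ℕ → ℕ} {k i nb n ks q X Y : ℕ} {S b' : ℝ}, k ≤ i → i ≤ r →
    (∀ t ≤ nb, fb t ≤ N) →
    (∀ t < nb, jb t ≤ M ∧ z (fb t) (jb t) = ⌊o (fb (t + 1)) * J⌋₊ - ⌊o (fb t) * J⌋₊ ∧
      o (fb t) ≤ o (fb (t + 1))) → (nb : ℝ) ≤ 2 ^ Y →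
    (∀ t ≤ nb, ∀ l < k, (lv (fb t) l - o (fb t) - (lv (fb nb) l - o (fb nb))) * J ≤ Y ∧
      (lv (fb nb) l - o (fb nb) - (lv (fb t) l - o (fb t))) * J ≤ Y) → f 0 = fb nb →
    Set.InjOn c (Set.Iio (r + 1)) → 1 ≤ n → (∀ t ≤ n, f t ≤ N) →
    (∀ t < n, jj t ≤ M ∧ z (f t) (jj t) = ⌊o (f (t + 1)) * J⌋₊ - ⌊o (f t) * J⌋₊ ∧
      o (f t) ≤ o (f (t + 1))) →
    C₀ * (ηm * J) ≤ Y → 3 ≤ Y → (n : ℝ) ≤ 2 ^ Y → 0 ≤ S → S ≤ b' →
    (∀ t < n, ∀ l ≤ i, (lv (f (t + 1)) l - lv (f t) l) * J ≤ Y ∧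
      (lv (f t) l - lv (f (t + 1)) l) * J ≤ Y) →
    (∀ t < n, b' * ((o (f (t + 1)) - o (f t)) * J) ≤ Y) →
    -- the slopes
    (∀ t t', t ≤ t' → t' ≤ n → ∀ l < k,
      (lv (f t') l - lv (f t) l) * J ≤ S * ((o (f t') - o (f t)) * J) + Y) →
    (∀ t t', t ≤ t' → t' ≤ n → ∀ l, k ≤ l → l ≤ i →
      b' * ((o (f t') - o (f t)) * J) ≤ (lv (f t') l - lv (f t) l) * J + Y) →
    -- the label of the target
    (∀ y, (GN y).totalDegree ≤ D') → (∀ y, DepC c i (GN y)) →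
    (∀ ω, B ω → ∀ x, NBx c (G (f 0) (ptr F J ω)) (g₀ (f 0)) ⌊o (f 0) * J⌋₊ (F.t ω) i x →
      |eval x (GN (ptr F J ω)) + κN ω - eval x (G (f 0) (ptr F J ω) i)| ≤
        2 ^ Y / 2 ^ g₀ (f 0) i) →
    -- the numbers
    S * ((o (f n) - o (f 0)) * J) + 3 ≤ q →
    (q : ℝ) + X ≤ b' * ((o (f n) - o (f 0)) * J) + Y → X ≤ q → ks ≤ n →
    (X : ℝ) ≤ (b' - S) * ((o (f ks) - o (f 0)) * J) + Y →
    -- the bounds, also in the directions of the slower followers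
    (∀ ω, B ω → ∀ j < i, (k ≤ j → ∀ t t', t ≤ t' → t' ≤ n → ∀ l, j < l →
        l ≤ i → (lv (f t') j - lv (f t) j) * J ≤ (lv (f t') l - lv (f t) l) * J + Y) →
      |gnh F c i (g₀ (f 0)) (folN G GN (fb 0) (f n) k i) (G (f n)) ω j| ≤ 2 ^ (C * Y)) ∧
    ∀ ω ν, B ω → B ν → F.t ω = F.t ν → GN (ptr F J ω) = GN (ptr F J ν) →
      (∀ j < k, |hgt F c (folN G GN (fb 0) (f n) k i) ω j -
        hgt F c (folN G GN (fb 0) (f n) k i) ν j| ≤ 2 ^ 2 / 2 ^ (g₀ (f 0) j + q)) →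
      (∀ l < k, G (fb 0) (ptr F J ω) l = G (fb 0) (ptr F J ν) l) →
      ((∀ t ≤ ks, ∀ l ≤ i, G (f t) (ptr F J ω) l = G (f t) (ptr F J ν) l) → ∀ j < k,
        |gnh F c i (g₀ (f 0)) (folN G GN (fb 0) (f n) k i) (G (f n)) ω j -
          gnh F c i (g₀ (f 0)) (folN G GN (fb 0) (f n) k i) (G (f n)) ν j| ≤
            2 ^ (C * Y) / 2 ^ X) ∧
      ((∀ t ≤ n, ∀ l ≤ i, G (f t) (ptr F J ω) l = G (f t) (ptr F J ν) l) →
        (∀ j < k, |gnh F c i (g₀ (f 0)) (folN G GN (fb 0) (f n) k i) (G (f n)) ω j -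
          gnh F c i (g₀ (f 0)) (folN G GN (fb 0) (f n) k i) (G (f n)) ν j| ≤
            2 ^ (C * Y) / 2 ^ X) ∧
        |2 ^ (g₀ (f 0) i + q) * (hgt F c (folN G GN (fb 0) (f n) k i) ω i -
            hgt F c (folN G GN (fb 0) (f n) k i) ν i) -
          ∑ j ∈ range k,
            gnh F c i (g₀ (f 0)) (folN G GN (fb 0) (f n) k i) (G (f n)) ω j *
            (2 ^ (g₀ (f 0) j + q) * (hgt F c (folN G GN (fb 0) (f n) k i) ω j -
              hgt F c (folN G GN (fb 0) (f n) k i) ν j))| ≤ 2 ^ (C * Y) / 2 ^ X)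

/-- 44's form implies it. -/
theorem gfrW_of (h : GfrStmt) : GfrW := by
  intro D D' r
  obtain ⟨C, hC, H⟩ := h D D' r
  refine ⟨C, hC, ?_⟩
  intro m J F c Dr N M C₀ a Eb ηm o η σ lv b κ z B g₀ G H' W GN κN fb jb f jj k i nb n ks q X Y S b'
    a1 a2 a3 a4 a5 a6 a7 a8 a9 a10 a11 a12 a13 a14 a15 a16 a17 a18 a19 a20 a21 a22 a23 a24 a25 a26
    a27 a28
  obtain ⟨g1, g2⟩ := H W a1 a2 a3 a4 a5 a6 a7 a8 a9 a10 a11 a12 a13 a14 a15 a16 a17 a18 a19 a20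
    a21 a22 a23 a24 a25 a26 a27 a28
  exact ⟨fun ω hω j hj hp => g1 ω hω j hj fun hk t ht =>
    hp hk 0 t (Nat.zero_le _) ht i hj le_rfl, g2⟩

theorem folN_lo {m J : ℕ} {F : Fam m J} (G : ℕ → PtT F → ℕ → MvPolynomial (Option (Fin m)) ℝ)
    (GN : PtT F → MvPolynomial (Option (Fin m)) ℝ) {kb kn k i l : ℕ} (h : l < k) (y : PtT F) :
    folN G GN kb kn k i y l = G kb y l := if_pos h

theorem folN_top {m J : ℕ} {F : Fam m J} (G : ℕ → PtT F → ℕ → MvPolynomial (Option (Fin m)) ℝ)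
    (GN : PtT F → MvPolynomial (Option (Fin m)) ℝ) {kb kn k i : ℕ} (h : k ≤ i) (y : PtT F) :
    folN G GN kb kn k i y i = GN y := by
  unfold folN
  rw [if_neg (by omega), if_neg (by omega)]

theorem frP_lo {m J : ℕ} {F : Fam m J} (G : ℕ → PtT F → ℕ → MvPolynomial (Option (Fin m)) ℝ)
    (GN : PtT F → MvPolynomial (Option (Fin m)) ℝ) {kb kw k l : ℕ} (h : l < k) (y : PtT F) :
    frP G GN kb kw k y l = G kb y l := if_pos h

theorem frP_k {m J : ℕ} {F : Fam m J} (G : ℕ → PtT F → ℕ → MvPolynomial (Option (Fin m)) ℝ)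
    (GN : PtT F → MvPolynomial (Option (Fin m)) ℝ) {kb kw k : ℕ} (y : PtT F) :
    frP G GN kb kw k y k = G kw y k := by
  unfold frP
  rw [if_neg (lt_irrefl _), if_pos rfl]

theorem frP_top {m J : ℕ} {F : Fam m J} (G : ℕ → PtT F → ℕ → MvPolynomial (Option (Fin m)) ℝ)
    (GN : PtT F → MvPolynomial (Option (Fin m)) ℝ) {kb kw k : ℕ} (y : PtT F) :
    frP G GN kb kw k y (k + 1) = GN y := by
  unfold frP
  rw [if_neg (by omega), if_neg (by omega)]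

/-- Heights depend on the chart of the place only. -/
theorem hgt_of {m J : ℕ} {F : Fam m J} {c : ℕ → Fin m}
    {G G' : PtT F → ℕ → MvPolynomial (Option (Fin m)) ℝ} {l : ℕ} (h : ∀ y, G y l = G' y l)
    (ω : F.Ω) : hgt F c G ω l = hgt F c G' ω l := by
  unfold Pool.D2R.hgt
  rw [h]

set_option maxHeartbeats 8000000 in
/-- **The gradients of the pair on one event.** -/
theorem grdP (hG : GfrW) : GrdPStmt := by
  intro D D' k hk1
  obtain ⟨C₁, hC₁, H1⟩ := v0_grd D (k + 1)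
  obtain ⟨C₂, hC₂, H2⟩ := hG D D' (k + 1)
  refine ⟨C₁ + C₂, by omega, ?_⟩
  intro s sn Gs b o φ w u y ξ T Λ C κ₀ e lam x' xr xq w₁ vq oq xa m J F c Dr N M C₀ a Eb ηm ow η σ
    lv bb κ z A g₀ G H fb f nb n ks GN κN W Nn hinj hn hks hfb hf hf0 hob how gfb gf stb st hlv hC
    zb zf big hnb hn' hdG hdP hnear
  obtain ⟨b1, b2, b3, b4, b5, b6, b7, b8, b9, b10, b11, b12, b13, b14, b15, b16, b17⟩ := Nn.wb
  obtain ⟨h1, h2, h3, h4, h5, h6, h7, h8, h9, h10⟩ := Nn.sm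
  obtain ⟨c1, c2, c3, c4, c5, c6, c7, c8, c9, c10, c11, c12⟩ := Nn.sw
  obtain ⟨d1, d2⟩ := Nn.ξu
  have hJ : (0 : ℝ) ≤ J := Nat.cast_nonneg J
  have hs := Nn.s1
  have hu := Nn.u0
  have hy0 := Nn.y0
  have hx := abs_le.1 Nn.hx
  have hj := abs_le.1 Nn.hj
  have hyu := Nn.yu
  have hyξ := Nn.yξ
  have hus := Nn.us
  obtain ⟨Y, hY⟩ : ∃ Y : ℕ, Y = ⌈1000 * y * (J : ℝ)⌉₊ + 3 := ⟨_, rfl⟩
  have hY1 : 1000 * y * (J : ℝ) + 3 ≤ Y := by
    rw [hY]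
    push_cast
    have := Nat.le_ceil (1000 * y * (J : ℝ))
    linarith
  have mj : ∀ {a a' : ℝ}, a ≤ a' → a * J ≤ a' * J := fun h => mul_le_mul_of_nonneg_right h hJ
  have yJ : 10 ≤ y * J := by
    have := mj (show φ ≤ y by linarith)
    linarith
  have hφY : 1000 * (φ * J) ≤ Y := by
    have := mj (show φ ≤ y by linarith)
    linarith
  have hsY : 1000 * (s * φ * J) ≤ Y := by
    have := mj (show s * φ ≤ y by linarith)
    linarith
  -- monotone windows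
  have mb := mono_ch fun t ht => (stb t ht).1
  have mf := mono_ch fun t ht => (st t ht).1
  have rb : ∀ t ≤ nb, b ≤ ow (fb t) ∧ ow (fb t) ≤ w := by
    intro t ht
    have e1 := mb 0 t (Nat.zero_le _) ht
    have e2 := mb t nb ht le_rfl
    rw [hob] at e1
    rw [← hf0, how] at e2
    exact ⟨e1, e2⟩
  have rf : ∀ t ≤ n, w ≤ ow (f t) ∧ ow (f t) ≤ ow (f n) := by
    intro t ht
    have e1 := mf 0 t (Nat.zero_le _) ht
    have e2 := mf t n ht le_rfl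
    rw [how] at e1
    exact ⟨e1, e2⟩
  have hq1 : (u + 500 * y) * J - 1 ≤ (⌊(u + 500 * y) * J⌋₊ : ℝ) := by
    have := Nat.lt_floor_add_one ((u + 500 * y) * (J : ℝ))
    linarith
  have hq2 : (⌊(u + 500 * y) * J⌋₊ : ℝ) ≤ (u + 500 * y) * J :=
    Nat.floor_le (mul_nonneg (by linarith) hJ)
  have hX2 : (⌊ξ * u * J⌋₊ : ℝ) ≤ ξ * u * J := Nat.floor_le (mul_nonneg d1.le hJ)
  choose! jb hjb using zb
  choose! jj hjj using zf
  -- the common facts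
  have A1 : ∀ t < nb, jb t ≤ M ∧ z (fb t) (jb t) = ⌊ow (fb (t + 1)) * J⌋₊ - ⌊ow (fb t) * J⌋₊ ∧
      ow (fb t) ≤ ow (fb (t + 1)) := fun t ht => ⟨(hjb t ht).1, (hjb t ht).2, (stb t ht).1⟩
  have A2 : (nb : ℝ) ≤ 2 ^ Y := le_two_pow hnb (by linarith)
  have A3 : ∀ t ≤ nb, ∀ l < k, (lv (fb t) l - ow (fb t) - (lv (fb nb) l - ow (fb nb))) * J ≤ Y ∧
      (lv (fb nb) l - ow (fb nb) - (lv (fb t) l - ow (fb t))) * J ≤ Y := by
    intro t ht l hl
    obtain ⟨r1, r2⟩ := rb t ht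
    have e0 : ow (fb nb) = w := by rw [← hf0, how]
    rw [hlv _ (hfb t ht) l (by omega), hlv _ (hfb nb le_rfl) l (by omega), e0]
    have e1 := abs_le.1 (Nn.sl l hl _ (gfb t ht) r1 (r2.trans b2))
    have e2 := mj e1.1
    have e3 := mj e1.2
    constructor <;> linarith
  have A4 : ∀ t < n, jj t ≤ M ∧ z (f t) (jj t) = ⌊ow (f (t + 1)) * J⌋₊ - ⌊ow (f t) * J⌋₊ ∧
      ow (f t) ≤ ow (f (t + 1)) := fun t ht => ⟨(hjj t ht).1, (hjj t ht).2, (st t ht).1⟩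
  have A5 : C₀ * (ηm * J) ≤ Y := by
    have e1 := mj hC
    have e2 : C₀ * (ηm * J) = C₀ * ηm * J := by ring
    rw [e2]
    linarith
  have A6 : 3 ≤ Y := by
    rw [hY]
    omega
  have A7 : (n : ℝ) ≤ 2 ^ Y := le_two_pow hn' (by linarith)
  have A8 : ∀ t < n, ∀ l ≤ k + 1, (lv (f (t + 1)) l - lv (f t) l) * J ≤ Y ∧
      (lv (f t) l - lv (f (t + 1)) l) * J ≤ Y := by
    intro t ht l hl
    obtain ⟨r1, r2⟩ := rf t ht.le
    obtain ⟨r3, r4⟩ := rf (t + 1) (by omega)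
    obtain ⟨r5, r6⟩ := st t ht
    rw [hlv _ (hf t ht.le) l hl, hlv _ (hf (t + 1) (by omega)) l hl]
    rcases Nat.lt_or_ge l k with h | h
    · have e1 := abs_le.1 (Nn.sl l h _ (gf t ht.le) (b1.trans r1) (r2.trans b7))
      have e2 := abs_le.1 (Nn.sl l h _ (gf (t + 1) (by omega)) (b1.trans r3) (r4.trans b7))
      have e3 := mj (show sn l (ow (f (t + 1))) - sn l (ow (f t)) ≤ 5 * φ by linarith)
      have e4 := mj (show sn l (ow (f t)) - sn l (ow (f (t + 1))) ≤ 5 * φ by linarith)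
      constructor <;> linarith
    · have e1 := Nn.stv h hl (gf t ht.le) (b1.trans r1) (r2.trans b7)
      have e2 := Nn.stv h hl (gf (t + 1) (by omega)) (b1.trans r3) (r4.trans b7)
      have e5 : s * (ow (f (t + 1)) - ow (f t)) ≤ s * φ :=
        mul_le_mul_of_nonneg_left (by linarith) (by linarith)
      have e6 : 0 ≤ s * (ow (f (t + 1)) - ow (f t)) := mul_nonneg (by linarith) (by linarith)
      have e3 := mj (show sn l (ow (f (t + 1))) - sn l (ow (f t)) ≤ s * φ + 2 * φ by linarith)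
      have e4 := mj (show sn l (ow (f t)) - sn l (ow (f (t + 1))) ≤ 2 * φ by linarith)
      constructor <;> linarith
  have A9 : ∀ t < n, s * ((ow (f (t + 1)) - ow (f t)) * J) ≤ Y := by
    intro t ht
    obtain ⟨r5, r6⟩ := st t ht
    have e5 : s * (ow (f (t + 1)) - ow (f t)) ≤ s * φ :=
      mul_le_mul_of_nonneg_left (by linarith) (by linarith)
    have e6 := mj e5
    have e7 : s * ((ow (f (t + 1)) - ow (f t)) * J) = s * (ow (f (t + 1)) - ow (f t)) * J := by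
      ring
    rw [e7]
    have : 0 ≤ s * φ * J := by positivity
    linarith
  have A10 : ∀ t t', t ≤ t' → t' ≤ n → ∀ l < k,
      (lv (f t') l - lv (f t) l) * J ≤ 1 * ((ow (f t') - ow (f t)) * J) + Y := by
    intro t t' htt ht' l hl
    obtain ⟨r1, r2⟩ := rf t (htt.trans ht')
    obtain ⟨r3, r4⟩ := rf t' ht'
    rw [hlv _ (hf t (htt.trans ht')) l (by omega), hlv _ (hf t' ht') l (by omega)]
    have e1 := abs_le.1 (Nn.sl l hl _ (gf t (htt.trans ht')) (b1.trans r1) (r2.trans b7))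
    have e2 := abs_le.1 (Nn.sl l hl _ (gf t' ht') (b1.trans r3) (r4.trans b7))
    have e3 := mj (show sn l (ow (f t')) - sn l (ow (f t)) ≤
      (ow (f t') - ow (f t)) + 4 * φ by linarith)
    linarith
  have A11 : ∀ t t', t ≤ t' → t' ≤ n → ∀ l, k ≤ l → l ≤ k + 1 →
      s * ((ow (f t') - ow (f t)) * J) ≤ (lv (f t') l - lv (f t) l) * J + Y := by
    intro t t' htt ht' l hl hl'
    obtain ⟨r1, r2⟩ := rf t (htt.trans ht')
    obtain ⟨r3, r4⟩ := rf t' ht'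
    rw [hlv _ (hf t (htt.trans ht')) l (by omega), hlv _ (hf t' ht') l (by omega)]
    have e1 := Nn.stv hl hl' (gf t (htt.trans ht')) (b1.trans r1) (r2.trans b7)
    have e2 := Nn.stv hl hl' (gf t' ht') (b1.trans r3) (r4.trans b7)
    have e3 := mj (show s * (ow (f t') - ow (f t)) ≤
      (sn l (ow (f t')) - sn l (ow (f t))) + 2 * φ by linarith)
    have e7 : s * ((ow (f t') - ow (f t)) * J) = s * (ow (f t') - ow (f t)) * J := by ring
    rw [e7]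
    linarith
  have A12 : 1 * ((ow (f n) - ow (f 0)) * J) + 3 ≤ (⌊(u + 500 * y) * J⌋₊ : ℝ) := by
    rw [how]
    have e1 := mj (show ow (f n) - w + φ ≤ u + 500 * y by linarith)
    linarith
  have A13 : (⌊(u + 500 * y) * J⌋₊ : ℝ) + (⌊ξ * u * J⌋₊ : ℝ) ≤
      s * ((ow (f n) - ow (f 0)) * J) + Y := by
    rw [how]
    have e1 := mj (show (u + 500 * y) + ξ * u ≤ s * (ow (f n) - w) by linarith)
    have e7 : s * ((ow (f n) - w) * J) = s * (ow (f n) - w) * J := by ring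
    rw [e7]
    have : (0 : ℝ) ≤ Y := Nat.cast_nonneg Y
    linarith
  have A14 : ⌊ξ * u * (J : ℝ)⌋₊ ≤ ⌊(u + 500 * y) * J⌋₊ := by
    have e1 := mj (show ξ * u + y ≤ u + 500 * y by linarith)
    have e2 : (⌊ξ * u * J⌋₊ : ℝ) ≤ (⌊(u + 500 * y) * J⌋₊ : ℝ) := by linarith
    exact_mod_cast e2
  have A15 : (⌊ξ * u * J⌋₊ : ℝ) ≤ (s - 1) * ((ow (f ks) - ow (f 0)) * J) + Y := by
    rw [how]
    have e0 : (s - 1) * (ow (f ks) - w) = s * (ow (f ks) - w) - (ow (f ks) - w) := by ring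
    have e1 := mj (show ξ * u ≤ (s - 1) * (ow (f ks) - w) + s * φ + φ by
      rw [e0]
      linarith)
    have e7 : (s - 1) * ((ow (f ks) - w) * J) = (s - 1) * (ow (f ks) - w) * J := by ring
    rw [e7]
    linarith
  -- the place `k`
  have g1 := H1 W (fb := fb) (jb := jb) (f := f) (jj := jj) (nb := nb) (n := n) (i := k)
    (k₀ := 0) (ks := ks) (q := ⌊(u + 500 * y) * J⌋₊) (X := ⌊ξ * u * J⌋₊) (Y := Y) (S := 1)
    (b' := s) hfb A1 A2 A3 hf0 hinj (by omega) hn hf A4 A5 A6 A7 zero_le_one hs.le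
    (fun t ht l hl => A8 t ht l (by omega)) A9 (fun t t' a1 a2 l a3 _ => A10 t t' a1 a2 l a3)
    (fun t ht => A11 0 t (Nat.zero_le _) ht k le_rfl (by omega)) A12 A13 A14 hks A15
  -- the last place
  obtain ⟨g2, g3⟩ := H2 W (GN := GN) (κN := κN) (fb := fb) (jb := jb) (f := f) (jj := jj) (k := k)
    (i := k + 1) (nb := nb) (n := n) (ks := ks) (q := ⌊(u + 500 * y) * J⌋₊)
    (X := ⌊ξ * u * J⌋₊) (Y := Y) (S := 1) (b' := s) (Nat.le_succ k) le_rfl hfb A1 A2 A3 hf0 hinj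
    hn hf A4 A5 A6 A7 zero_le_one hs.le A8 A9 A10 A11 hdG hdP (fun ω hω x hx => by
      refine (hnear ω hω x hx).trans (div_le_div_of_nonneg_right ?_ (by positivity))
      rw [← Real.rpow_natCast 2 Y]
      exact Real.rpow_le_rpow_of_exponent_le (by norm_num) (by linarith)) A12 A13 A14 hks A15
  have hU1 : (2 : ℝ) ^ (C₁ * Y) ≤ 2 ^ ((C₁ + C₂) * Y) :=
    pow_le_pow_right₀ (by norm_num) (Nat.mul_le_mul_right _ (by omega))
  have hU2 : (2 : ℝ) ^ (C₂ * Y) ≤ 2 ^ ((C₁ + C₂) * Y) :=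
    pow_le_pow_right₀ (by norm_num) (Nat.mul_le_mul_right _ (by omega))
  have hD : ∀ {a b : ℝ}, a ≤ b → a / 2 ^ ⌊ξ * u * (J : ℝ)⌋₊ ≤ b / 2 ^ ⌊ξ * u * (J : ℝ)⌋₊ :=
    fun h => div_le_div_of_nonneg_right h (by positivity)
  rw [← hY]
  -- heights in the frames
  have f1 : ∀ ω, ∀ j < k, hgt F c (frP G GN (fb 0) (f 0) k) ω j =
      hgt F c (folN G GN (fb 0) (f n) k (k + 1)) ω j := fun ω j hj =>
    hgt_of (fun y => by rw [frP_lo G GN hj, folN_lo G GN hj]) ω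
  have f2 : ∀ ω, hgt F c (frP G GN (fb 0) (f 0) k) ω (k + 1) =
      hgt F c (folN G GN (fb 0) (f n) k (k + 1)) ω (k + 1) := fun ω =>
    hgt_of (fun y => by rw [frP_top G GN, folN_top G GN (Nat.le_succ k)]) ω
  have f3 : ∀ ω, ∀ j < k, hgt F c (frP G GN (fb 0) (f 0) k) ω j =
      hgt F c (hyb G (fb 0) (f 0) k) ω j := fun ω j hj =>
    hgt_of (fun y => by rw [frP_lo G GN hj, hyb_lo G hj]) ω
  have f4 : ∀ ω, hgt F c (frP G GN (fb 0) (f 0) k) ω k =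
      hgt F c (hyb G (fb 0) (f 0) k) ω k := fun ω =>
    hgt_of (fun y => by rw [frP_k G GN, hyb_hi G le_rfl]) ω
  have n0 : n ≠ 0 := by omega
  -- equal charts
  have q0 : ∀ {n' : ℕ} {ω ν : F.Ω}, chP F k n' G GN (fb 0) (f 0) f ω =
      chP F k n' G GN (fb 0) (f 0) f ν → (∀ t ≤ n', ∀ l ≤ k + 1, G (f t) (ptr F J ω) l =
        G (f t) (ptr F J ν) l) ∧ GN (ptr F J ω) = GN (ptr F J ν) ∧
        ∀ l < k, G (fb 0) (ptr F J ω) l = G (fb 0) (ptr F J ν) l := by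
    intro n' ω ν hh
    have e1 := Prod.ext_iff.mp hh
    refine ⟨chs_eq e1.1, ?_, fun l hl => ?_⟩
    · have e2 := congrFun e1.2 (Fin.last (k + 1))
      simp only [chP, Fin.val_last] at e2
      rwa [frP_top G GN, frP_top G GN] at e2
    · have e2 := congrFun e1.2 ⟨l, by omega⟩
      simp only [chP] at e2
      rwa [frP_lo G GN hl, frP_lo G GN hl] at e2
  have q1 : ∀ {n' : ℕ} {ω ν : F.Ω}, (∀ t ≤ n', ∀ l ≤ k + 1, G (f t) (ptr F J ω) l =
        G (f t) (ptr F J ν) l) → (∀ l < k, G (fb 0) (ptr F J ω) l = G (fb 0) (ptr F J ν) l) →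
      ∀ t ≤ n', ∀ l ≤ k, (fun t => if t = 0 then hyb G (fb 0) (f 0) k else G (f t)) t
        (ptr F J ω) l = (fun t => if t = 0 then hyb G (fb 0) (f 0) k else G (f t)) t
        (ptr F J ν) l := by
    intro n' ω ν h1 h2 t ht l hl
    dsimp only
    by_cases h0 : t = 0
    · subst h0
      rw [if_pos rfl]
      rcases Nat.lt_or_ge l k with h | h
      · rw [hyb_lo G h, hyb_lo G h]
        exact h2 l h
      · rw [hyb_hi G h, hyb_hi G h]
        exact h1 0 ht l (by omega)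
    · rw [if_neg h0]
      exact h1 t ht l (by omega)
  have q2 : ∀ {ω ν : F.Ω}, NrH F c (fun j : Fin k => (j : ℕ)) ⌊(u + 500 * y) * J⌋₊ (g₀ (f 0))
      (frP G GN (fb 0) (f 0) k) ω ν → (∀ j < k, |hgt F c (folN G GN (fb 0) (f n) k (k + 1)) ω j -
        hgt F c (folN G GN (fb 0) (f n) k (k + 1)) ν j| ≤
          2 ^ 2 / 2 ^ (g₀ (f 0) j + ⌊(u + 500 * y) * J⌋₊)) ∧
      ∀ j < k, 0 ≤ j → |hgt F c (hyb G (fb 0) (f 0) k) ω j -
        hgt F c (hyb G (fb 0) (f 0) k) ν j| ≤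
          2 ^ 2 / 2 ^ (g₀ (f 0) j + ⌊(u + 500 * y) * J⌋₊) := by
    intro ω ν hh
    refine ⟨fun j hj => ?_, fun j hj _ => ?_⟩
    · rw [← f1 ω j hj, ← f1 ν j hj]
      exact hh ⟨j, hj⟩
    · rw [← f3 ω j hj, ← f3 ν j hj]
      exact hh ⟨j, hj⟩
  have vac : ∀ {ω ν : F.Ω}, ∀ l < 0, F.x ω (c l) = F.x ν (c l) := fun l hl =>
    absurd hl (Nat.not_lt_zero l)
  have gm := g1.bm
  have gj := g1.bj
  have gx := g1.bx
  have gn := g1.nx
  rw [if_pos (rfl : (0 : ℕ) = 0), if_neg n0] at gm gj gx gn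
  refine ⟨⟨by positivity, fun ω hω v j => ?_, ?_, ?_, ?_⟩, fun ω hω i hi => ?_⟩
  · unfold ggP
    by_cases hv : v = 0
    · rw [if_pos hv]
      exact (g2 ω hω j (by omega) fun h => absurd j.2 (by omega)).trans hU2
    · rw [if_neg hv]
      exact (gm ω hω j j.2 (Nat.zero_le _)).trans hU1
  · intro ω ν hω hν ht _ hc hnr v j
    obtain ⟨a1, a2, a3⟩ := q0 hc
    obtain ⟨a4, a5⟩ := q2 hnr
    unfold ggP
    by_cases hv : v = 0
    · rw [if_pos hv, if_pos hv]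
      exact ((g3 ω ν hω hν ht a2 a4 a3).1 a1 j j.2).trans (hD hU2)
    · rw [if_neg hv, if_neg hv]
      exact (gj ω ν hω hν ht vac a5 (q1 a1 a3) j j.2 (Nat.zero_le _)).trans (hD hU1)
  · intro ω ν hω hν ht _ hc hnr v j
    obtain ⟨a1, a2, a3⟩ := q0 hc
    obtain ⟨a4, a5⟩ := q2 hnr
    unfold ggP
    by_cases hv : v = 0
    · rw [if_pos hv, if_pos hv]
      exact (((g3 ω ν hω hν ht a2 a4 a3).2 a1).1 j j.2).trans (hD hU2)
    · rw [if_neg hv, if_neg hv]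
      exact (gx ω ν hω hν ht vac a5 (q1 a1 a3) j j.2 (Nat.zero_le _)).trans (hD hU1)
  · intro ω ν hω hν ht _ hc hnr v
    obtain ⟨a1, a2, a3⟩ := q0 hc
    obtain ⟨a4, a5⟩ := q2 hnr
    have hp : (0 : ℝ) < 2 ^ ⌊ξ * u * (J : ℝ)⌋₊ := by positivity
    have key : ∀ {a b U : ℝ}, |a - b| ≤ U / 2 ^ ⌊ξ * u * (J : ℝ)⌋₊ →
        |2 ^ ⌊ξ * u * (J : ℝ)⌋₊ * a - 2 ^ ⌊ξ * u * (J : ℝ)⌋₊ * b| ≤ U := by
      intro a b U h
      rw [← mul_sub, abs_mul, abs_of_pos hp]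
      rwa [le_div_iff₀ hp, mul_comm] at h
    by_cases hv : v = 0
    · have h5 := ((g3 ω ν hω hν ht a2 a4 a3).2 a1).2
      rw [← f2, ← f2, Finset.sum_range] at h5
      refine le_trans (le_of_eq ?_) ((key h5).trans hU2)
      subst hv
      simp only [ggP, if_true]
      congr 2
      refine congrArg _ (Finset.sum_congr rfl fun j _ => ?_)
      rw [f1 ω j j.2, f1 ν j j.2]
    · have h5 := gn ω ν hω hν ht vac a5 (q1 a1 a3)
      rw [← f4, ← f4, ← Finset.range_eq_Ico, Finset.sum_range] at h5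
      refine le_trans (le_of_eq ?_) ((key h5).trans hU1)
      simp only [ggP, if_neg hv]
      congr 2
      refine congrArg _ (Finset.sum_congr rfl fun j _ => ?_)
      rw [f3 ω j j.2, f3 ν j j.2]
  · refine (g2 ω hω i hi fun hki t t' htt ht' l hl hl' => ?_).trans hU2
    obtain rfl : i = k := by omega
    obtain rfl : l = i + 1 := by omega
    obtain ⟨r1, r2⟩ := rf t (htt.trans ht')
    obtain ⟨r3, r4⟩ := rf t' ht'
    rw [hlv _ (hf t (htt.trans ht')) i (by omega), hlv _ (hf t' ht') i (by omega),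
      hlv _ (hf t (htt.trans ht')) (i + 1) le_rfl, hlv _ (hf t' ht') (i + 1) le_rfl]
    have e1 := Nn.stv le_rfl (Nat.le_succ i) (gf t (htt.trans ht')) (b1.trans r1) (r2.trans b7)
    have e2 := Nn.stv le_rfl (Nat.le_succ i) (gf t' ht') (b1.trans r3) (r4.trans b7)
    have e3 := Nn.stv (Nat.le_succ i) le_rfl (gf t (htt.trans ht')) (b1.trans r1) (r2.trans b7)
    have e4 := Nn.stv (Nat.le_succ i) le_rfl (gf t' ht') (b1.trans r3) (r4.trans b7)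
    have e5 := mj (show sn i (ow (f t')) - sn i (ow (f t)) ≤
      (sn (i + 1) (ow (f t')) - sn (i + 1) (ow (f t))) + 4 * φ by linarith)
    linarith

end Pool.V0Q
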