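import Pool.Agent.H44.V0P.S

/-!
# No look-ahead for two places of one slope

`nlqp_asm`: the entropies. `NlqpStmt'`: `NlqpStmt` with the error `κn + 4 Cn φ`. `nlqp`: it holds,
from `NuppStmt`.
-/

set_option autoImplicit false

namespace Pool.V0Q

open Finset Real MvPolynomial
open Pool.Agent.H49.Ent Pool.Agent.H32.Dense Pool.STK Pool.KA Pool.KSAT Pool.K2S Pool.PB Pool.GEN
open Pool.S6C Pool.RCD Pool.LA91 Pool.AVG96 Pool.OWN68 Pool.V0F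
open Pool.VT83 (NlqI)
open Pool.UNJ (ceI)

/-! ### The entropies -/

/-- Assembly: `XV`, `XU`: exact positions, `X1`, `X2`: digits of `XU`; `U1`, `U2`, `N1`, `N2`: heights;
`zw`, `Rj`: records; `zc`: the record of the charts, `z4`: a later record. -/
theorem nlqp_asm {Ω : Type} [Fintype Ω] {p : Ω → ℝ} (h0 : ∀ ω, 0 ≤ p ω)
    {α₁ α₂ α₃ α₄ α₅ α₆ α₇ α₈ α₉ β₁ β₂ β₃ β₄ β₅ β₆ : Type} {N1 : Ω → α₁} {N2 : Ω → α₂} {U1 : Ω → α₃}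
    {U2 : Ω → α₄} {XU : Ω → α₅} {X1 : Ω → α₆} {X2 : Ω → α₇} {XV : Ω → α₈} {CV : Ω → α₉}
    {XA : Ω → β₁} {zw : Ω → β₂} {zc : Ω → β₃} {Rj : Ω → β₄} {z4 : Ω → β₅} {Y : Ω → β₆}
    {a e κ L1 L2 F4 Fj : ℝ} (hVC : Det p XV CV) (hVA : Det p (fun ω => (XU ω, XV ω)) XA)
    (hAV : Det p XA (fun ω => (XU ω, XV ω))) (hX : Det p XU X2)
    (hzw : CH p zc zw ≤ a) (hzj : CH p zc Rj ≤ a) (hwz : CH p zw z4 ≤ a)
    (u1 : CH p X1 (fun ω => (U1 ω, (CV ω, (zc ω, Y ω)))) ≤ e)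
    (u2 : CH p U2 (fun ω => (X2 ω, (CV ω, (zc ω, Y ω)))) ≤ e)
    (u3 : CH p X2 (fun ω => (U2 ω, (CV ω, (zc ω, Y ω)))) ≤ e)
    (l1 : CH p X2 (fun ω => (X1 ω, ())) ≤ L1) (l2 : CH p XU (fun ω => (X2 ω, ())) ≤ L2)
    (f4 : F4 ≤ CH p XU (fun ω => (XV ω, (z4 ω, Y ω))))
    (fj : Fj ≤ CH p XU (fun ω => (XV ω, (Rj ω, Y ω))))
    (n1 : CH p N1 (fun ω => (XV ω, (z4 ω, Y ω))) ≤ e)
    (n2 : CH p N2 (fun ω => (XV ω, (z4 ω, Y ω))) ≤ e)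
    (m1 : CH p U1 (fun ω => (XV ω, (z4 ω, Y ω))) ≤ e)
    (m2 : CH p U2 (fun ω => (XV ω, (z4 ω, Y ω))) ≤ e)
    (nl : CH p N2 (fun ω => (N1 ω, (XA ω, (zw ω, Y ω)))) ≤
      CH p N2 (fun ω => (XA ω, (Rj ω, Y ω))) + κ) :
    CH p (fun ω => (N2 ω, U2 ω)) (fun ω => ((N1 ω, U1 ω), (XV ω, (zw ω, Y ω)))) ≤
      CH p (fun ω => (N2 ω, U2 ω)) (fun ω => (XV ω, (Rj ω, Y ω))) +
        (L1 + 2 * L2 - F4 - Fj + κ + 6 * a + 9 * e) := by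
  obtain ⟨C, hC⟩ : ∃ C : Ω → (α₁ × α₃) × (α₈ × (β₂ × β₆)), C =
    fun ω => ((N1 ω, U1 ω), (XV ω, (zw ω, Y ω))) := ⟨_, rfl⟩
  obtain ⟨D, hD⟩ : ∃ D : Ω → α₈ × (β₄ × β₆), D = fun ω => (XV ω, (Rj ω, Y ω)) := ⟨_, rfl⟩
  rw [← hC, ← hD]
  rw [← hD] at fj
  -- the left side
  have s1 : CH p (fun ω => (N2 ω, U2 ω)) C = CH p U2 C + CH p N2 (fun ω => (U2 ω, C ω)) :=
    CH_chain h0 N2 U2 C
  have s2 := CH_le_add h0 U2 X2 C
  have s3 : CH p U2 (fun ω => (X2 ω, C ω)) ≤ a + e := by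
    refine CH_tr h0 U2 (A := zc) (le_trans (CH_mono_cond h0 fun ω ω' _ _ hh => ?_) hzw) u2
      fun ω ω' hω hω' hh => ?_
    · rw [hC] at hh
      simp only [Prod.mk.injEq] at hh
      exact hh.2.2.2.1
    · rw [hC] at hh
      simp only [Prod.mk.injEq] at hh ⊢
      exact ⟨hh.2.1, hVC ω ω' hω hω' hh.2.2.2.1, hh.1, hh.2.2.2.2.2⟩
  have s4 := CH_le_add h0 X2 X1 C
  have s5 : CH p X1 C ≤ a + e := by
    refine CH_tr h0 X1 (A := zc) (le_trans (CH_mono_cond h0 fun ω ω' _ _ hh => ?_) hzw) u1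
      fun ω ω' hω hω' hh => ?_
    · rw [hC] at hh
      simp only [Prod.mk.injEq] at hh
      exact hh.2.2.1
    · rw [hC] at hh
      simp only [Prod.mk.injEq] at hh ⊢
      exact ⟨hh.2.1.2, hVC ω ω' hω hω' hh.2.2.1, hh.1, hh.2.2.2.2⟩
  have s6 : CH p X2 (fun ω => (X1 ω, C ω)) ≤ L1 := (CH_mono_cond h0 fun ω ω' _ _ hh => by
    simp only [Prod.mk.injEq] at hh ⊢
    exact ⟨hh.1, trivial⟩).trans l1
  -- the mutual information of `XU` and `N2`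
  have s7 := CH_chain h0 N2 XU (fun ω => (U2 ω, C ω))
  have s8 : CH p (fun ω => (N2 ω, XU ω)) (fun ω => (U2 ω, C ω)) =
      CH p N2 (fun ω => (U2 ω, C ω)) + CH p XU (fun ω => (N2 ω, (U2 ω, C ω))) := by
    rw [← CH_chain h0 XU N2]
    refine CH_congr h0 ?_ ?_ (fun _ _ _ _ h => h) (fun _ _ _ _ h => h)
    · intro ω ω' _ _ hh
      simp only [Prod.mk.injEq] at hh ⊢
      exact ⟨hh.1.2, hh.1.1⟩
    · intro ω ω' _ _ hh
      simp only [Prod.mk.injEq] at hh ⊢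
      exact ⟨hh.1.2, hh.1.1⟩
  have s9 := CH_le_add h0 XU X2 (fun ω => (U2 ω, C ω))
  have s10 : CH p X2 (fun ω => (U2 ω, C ω)) ≤ a + e := by
    refine CH_tr h0 X2 (A := zc) (le_trans (CH_mono_cond h0 fun ω ω' _ _ hh => ?_) hzw) u3
      fun ω ω' hω hω' hh => ?_
    · rw [hC] at hh
      simp only [Prod.mk.injEq] at hh
      exact hh.2.2.2.1
    · rw [hC] at hh
      simp only [Prod.mk.injEq] at hh ⊢
      exact ⟨hh.2.1, hVC ω ω' hω hω' hh.2.2.2.1, hh.1, hh.2.2.2.2.2⟩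
  have s11 : CH p XU (fun ω => (X2 ω, (U2 ω, C ω))) ≤ L2 := (CH_mono_cond h0 fun ω ω' _ _ hh => by
    simp only [Prod.mk.injEq] at hh ⊢
    exact ⟨hh.1, trivial⟩).trans l2
  have s12 : F4 - (4 * e + a) ≤ CH p XU (fun ω => (N2 ω, (U2 ω, C ω))) := by
    obtain ⟨W4, hW4⟩ : ∃ W4 : Ω → α₈ × (β₅ × β₆), W4 = fun ω => (XV ω, (z4 ω, Y ω)) :=
      ⟨_, rfl⟩
    rw [← hW4] at f4 n1 n2 m1 m2
    have t1 := CH_le_add h0 XU (fun ω => (N2 ω, U2 ω)) W4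
    have t2 := CH_subadd h0 N2 U2 W4
    have t3 := CH_le_add h0 XU (fun ω => (N1 ω, U1 ω)) (fun ω => ((N2 ω, U2 ω), W4 ω))
    have t4 := CH_subadd h0 N1 U1 W4
    have t5 : CH p (fun ω => (N1 ω, U1 ω)) (fun ω => ((N2 ω, U2 ω), W4 ω)) ≤
        CH p (fun ω => (N1 ω, U1 ω)) W4 := CH_mono_cond h0 fun ω ω' _ _ hh =>
      (Prod.ext_iff.mp hh).2
    have t6 := CH_le_add h0 XU zw (fun ω => ((N1 ω, U1 ω), ((N2 ω, U2 ω), W4 ω)))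
    have t7 : CH p zw (fun ω => ((N1 ω, U1 ω), ((N2 ω, U2 ω), W4 ω))) ≤ a :=
      (CH_mono_cond h0 fun ω ω' _ _ hh => by
        rw [hW4] at hh
        simp only [Prod.mk.injEq] at hh
        exact hh.2.2.2.1).trans hwz
    have t8 : CH p XU (fun ω => (zw ω, ((N1 ω, U1 ω), ((N2 ω, U2 ω), W4 ω)))) ≤
        CH p XU (fun ω => (N2 ω, (U2 ω, C ω))) := CH_mono_cond h0 fun ω ω' _ _ hh => by
      rw [hW4] at hh
      rw [hC]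
      simp only [Prod.mk.injEq] at hh ⊢
      obtain ⟨a1, ⟨a2, a3⟩, ⟨a4, a5⟩, a6, a7, a8⟩ := hh
      exact ⟨a4, a5, ⟨a2, a3⟩, a6, a1, a8⟩
    linarith
  -- the last place
  have s13 : CH p N2 (fun ω => (XU ω, (U2 ω, C ω))) ≤ CH p N2 (fun ω => (N1 ω, (XA ω, (zw ω, Y ω))))
      := CH_mono_cond h0 fun ω ω' hω hω' hh => by
    rw [hC] at hh
    simp only [Prod.mk.injEq] at hh ⊢
    obtain ⟨a1, -, ⟨a2, -⟩, a3, a4, a5⟩ := hh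
    exact ⟨a2, hVA ω ω' hω hω' (Prod.ext a1 a3), a4, a5⟩
  -- the right side
  have r1 : CH p (fun ω => (N2 ω, U2 ω)) D = CH p U2 D + CH p N2 (fun ω => (U2 ω, D ω)) :=
    CH_chain h0 N2 U2 D
  have r2 := CH_le_add h0 XU U2 D
  have r3 := CH_le_add h0 XU X2 (fun ω => (U2 ω, D ω))
  have r4 : CH p X2 (fun ω => (U2 ω, D ω)) ≤ a + e := by
    refine CH_tr h0 X2 (A := zc) (le_trans (CH_mono_cond h0 fun ω ω' _ _ hh => ?_) hzj) u3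
      fun ω ω' hω hω' hh => ?_
    · rw [hD] at hh
      simp only [Prod.mk.injEq] at hh
      exact hh.2.2.1
    · rw [hD] at hh
      simp only [Prod.mk.injEq] at hh ⊢
      exact ⟨hh.2.1, hVC ω ω' hω hω' hh.2.2.1, hh.1, hh.2.2.2.2⟩
  have r5 : CH p XU (fun ω => (X2 ω, (U2 ω, D ω))) ≤ L2 := (CH_mono_cond h0 fun ω ω' _ _ hh => by
    simp only [Prod.mk.injEq] at hh ⊢
    exact ⟨hh.1, trivial⟩).trans l2
  have r6 : CH p N2 (fun ω => (XU ω, (U2 ω, D ω))) ≤ CH p N2 (fun ω => (U2 ω, D ω)) :=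
    CH_mono_cond h0 fun ω ω' _ _ hh => (Prod.ext_iff.mp hh).2
  have r7 := CH_le_add h0 N2 U2 (fun ω => (XU ω, D ω))
  have r8 : CH p U2 (fun ω => (XU ω, D ω)) ≤ a + e := by
    refine CH_tr h0 U2 (A := zc) (le_trans (CH_mono_cond h0 fun ω ω' _ _ hh => ?_) hzj) u2
      fun ω ω' hω hω' hh => ?_
    · rw [hD] at hh
      simp only [Prod.mk.injEq] at hh
      exact hh.2.2.1
    · rw [hD] at hh
      simp only [Prod.mk.injEq] at hh ⊢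
      exact ⟨hX ω ω' hω hω' hh.2.1, hVC ω ω' hω hω' hh.2.2.1, hh.1, hh.2.2.2.2⟩
  have r9 : CH p N2 (fun ω => (U2 ω, (XU ω, D ω))) ≤ CH p N2 (fun ω => (XU ω, (U2 ω, D ω))) :=
    CH_mono_cond h0 fun ω ω' _ _ hh => by
      simp only [Prod.mk.injEq] at hh ⊢
      exact ⟨hh.2.1, hh.1, hh.2.2⟩
  have r10 : CH p N2 (fun ω => (XA ω, (Rj ω, Y ω))) ≤ CH p N2 (fun ω => (XU ω, D ω)) :=
    CH_mono_cond h0 fun ω ω' hω hω' hh => by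
      rw [hD]
      simp only [Prod.mk.injEq] at hh ⊢
      have h1 := Prod.ext_iff.mp (hAV ω ω' hω hω' hh.1)
      exact ⟨h1.1, h1.2, hh.2.1, hh.2.2⟩
  linarith

/-! ### The classes -/

variable {m : ℕ}

/-- Coarser digits of a position. -/
theorem X_det {J : ℕ} (F : Fam m J) (k : Fin m) {r r' : ℕ} (h : r ≤ r') {ω ω' : F.Ω}
    (e : F.X r' ω k = F.X r' ω' k) : F.X r ω k = F.X r ω' k := by
  have key : ∀ ω : F.Ω, F.X r ω k = F.X r' ω k / 2 ^ (r' - r) := by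
    intro ω
    have h1 : (2 : ℝ) ^ r * F.x ω k = (2 ^ r' * F.x ω k) / ((2 ^ (r' - r) : ℕ) : ℝ) := by
      have : (2 : ℝ) ^ r' = 2 ^ r * 2 ^ (r' - r) := by
        rw [← pow_add]; congr 1; omega
      rw [this]
      push_cast
      field_simp
    change ⌊(2 : ℝ) ^ r * F.x ω k⌋ = ⌊(2 : ℝ) ^ r' * F.x ω k⌋ / 2 ^ (r' - r)
    rw [h1, Int.floor_div_natCast]
    push_cast
    rfl
  rw [key ω, key ω', e]

/-- The side of the line, all windows. -/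
theorem vg_up {w w' : ℝ} (h : w ≤ w') (J : ℕ) (F : Fam m J) :
    ∃ φ : LnT F → LnT F, ∀ ω, vg w J F ω = φ (vg w' J F ω) := by
  have h1 : ⌊w * (J : ℝ)⌋₊ ≤ ⌊w' * (J : ℝ)⌋₊ :=
    Nat.floor_le_floor (mul_le_mul_of_nonneg_right h (Nat.cast_nonneg (α := ℝ) J))
  refine ⟨fun s => (s.1, s.2.1, s.2.2 / 2 ^ ((J - ⌊w * (J : ℝ)⌋₊) - (J - ⌊w' * (J : ℝ)⌋₊))),
    fun ω => ?_⟩
  show (F.l ω, F.Z ω, F.T ω / 2 ^ (J - ⌊w * (J : ℝ)⌋₊)) = (F.l ω, F.Z ω,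
    F.T ω / 2 ^ (J - ⌊w' * (J : ℝ)⌋₊) / 2 ^ ((J - ⌊w * (J : ℝ)⌋₊) - (J - ⌊w' * (J : ℝ)⌋₊)))
  rw [Nat.div_div_eq_div_mul, ← pow_add]
  congr 4
  omega

/-- **The last place of the chain is full** given the record. -/
theorem ful_at {S : PCl m} {c : ℕ → Fin m} {k : ℕ} {x : ℝ} {s : ℕ → ℝ}
    (hpos : ∀ (τ : ℝ) (J : ℕ) (F : Fam m J) (A : F.Ω → Prop), S.St τ J F A → 0 < Pe F.p A)
    (hch : FulC S c 0 (k + 1) x s) {ρ : ℝ} (hρ : 0 < ρ) :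
    Bas S (fun J F A => ∀ (V : Type) (z : F.Ω → V), Cl2 (ptr F J) (vg x J F) A z →
      ((1 - s k) - ρ) * Real.log 2 * J ≤ CH (Pool.Agent.H49.Ent.cond F.p A True)
        (fun ω => F.X J ω (c k)) (fun ω => ((fun l : Fin k => F.X J ω (c l)), (z ω, F.W ω)))) := by
  refine Bas.mono 0 ((hch ρ hρ).and (pos_bas hpos)) ?_
  rintro J - F A ⟨H, hA⟩ V z ⟨⟨φ', hφ'⟩, ψ, hψ⟩
  have hcl := isLaw_cond F.isLaw hA
  have h1 := H V φ' ψ (fun ω hω => (hφ' ω hω).symm.trans (hψ ω hω)) k (Nat.zero_le _)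
    (Nat.lt_succ_self k)
  refine h1.trans (CH_mono_cond hcl.nonneg fun ω ω' hω hω' hh => ?_)
  simp only [Prod.mk.injEq] at hh ⊢
  refine ⟨hh.1, ?_, hh.2.2⟩
  rw [hψ ω (of_cond_pos hω), hψ ω' (of_cond_pos hω')]
  exact hh.2.1

/-- The digits of the positions over the charts of `b`: `D` digits behind the level at `w`. -/
noncomputable def nq (k : ℕ) (sn : ℕ → ℝ → ℝ) (w D φ : ℝ) (i : ℕ) : ℝ :=
  sn i w + D + (30 * ((k : ℝ) - i) + 30) * φ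

section lad

variable {S : PCl m} {c : ℕ → Fin m} {k : ℕ} {sn : ℕ → ℝ → ℝ} {G : Set ℝ} {b o φ w x D : ℝ}

theorem nq_bd (L : Lad S c k sn G b o φ) (hw : w ∈ G) (hx : x ∈ G) (hbw : b ≤ w) (hwx : w ≤ x)
    (hxo : x ≤ o) (hD : x - w ≤ D) {i : ℕ} (hi : i < k) : sn i x + 20 * φ ≤ nq k sn w D φ i ∧
      nq k sn w D φ i ≤ sn i w + D + (30 * (k : ℝ) + 30) * φ := by
  have hφ := L.φ0
  have h1 := abs_le.1 (L.flat hi hw hx hbw (hwx.trans hxo) (hbw.trans hwx) hxo)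
  have h3 : (0 : ℝ) ≤ i := Nat.cast_nonneg i
  have h4 : (i : ℝ) + 1 ≤ k := by exact_mod_cast hi
  have h5 : 0 ≤ (i : ℝ) * φ := by positivity
  have h6 : φ ≤ ((k : ℝ) - i) * φ := by nlinarith
  unfold nq
  refine ⟨?_, ?_⟩ <;> nlinarith [h1.1, h1.2]

theorem nq_nst (hφ : 0 < φ) (hD0 : 0 ≤ D) (hD1 : D + (50 * (k : ℝ) + 60) * φ ≤ 1 - w) :
    Nst k sn w φ (nq k sn w D φ) := by
  have hkφ : 0 ≤ (k : ℝ) * φ := by positivity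
  refine ⟨fun i hi => ?_, fun i hi => ?_, fun i hi l hl => ?_⟩
  · have h4 : (i : ℝ) + 1 ≤ k := by exact_mod_cast hi
    unfold nq
    nlinarith
  · have h3 : (0 : ℝ) ≤ i := Nat.cast_nonneg i
    have h5 : 0 ≤ (i : ℝ) * φ := by positivity
    unfold nq
    nlinarith
  · have h4 : (l : ℝ) + 1 ≤ i := by exact_mod_cast hl
    unfold nq
    nlinarith

theorem nq_tp (L : Lad S c k sn G b o φ) (hw : w ∈ G) (hbw : b ≤ w) (hwo : w ≤ o)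
    (hD1 : D + (50 * (k : ℝ) + 60) * φ ≤ 1 - w)
    (hD2 : ∀ l < k, D + (50 * (k : ℝ) + 60) * φ ≤ 1 - sn l w) :
    Tp k sn b φ (nq k sn w D φ) := by
  have hφ := L.φ0
  have hkφ : 0 ≤ (k : ℝ) * φ := by positivity
  have hn : ∀ i < k, nq k sn w D φ i ≤ sn i w + D + (30 * (k : ℝ) + 30) * φ := fun i _ => by
    have h3 : (0 : ℝ) ≤ i := Nat.cast_nonneg i
    have h5 : 0 ≤ (i : ℝ) * φ := by positivity
    unfold nq
    nlinarith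
  have hf : ∀ i < k, |(sn i w - w) - (sn i b - b)| ≤ 2 * φ := fun i hi =>
    L.flat hi hw L.bG hbw hwo le_rfl L.bo
  refine ⟨fun i hi => ?_, fun i hi l hl => ?_⟩
  · have h1 := hn i hi
    have h2 := abs_le.1 (hf i hi)
    linarith
  · have h1 := hn i hi
    have h2 := abs_le.1 (hf i hi)
    have h3 := abs_le.1 (hf l (hl.trans hi))
    have h4 := hD2 l (hl.trans hi)
    linarith

/-- **A quantity which is few bits given the near positions** is few bits given the exact ones. -/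
theorem few_pos_of (L : Lad S c k sn G b o φ) (hx : x ∈ G) (hbx : b ≤ x) (hxo : x ≤ o)
    {n : ℕ → ℝ} (hn : ∀ i < k, sn i x ≤ n i ∧ n i ≤ 1) (tp : Tp k sn b φ n) {U : Type}
    {Q : Qt m U} (h : Few S (fun J F => ptr F J) (vg x) (fun _ F => F.W)
      (qJets m c 0 k 0 (fun _ _ => b) (fun l _ => sn l b) (fun l _ => n l)) Q) :
    Few S (fun J F => ptr F J) (vg x) (fun _ F => F.W) (qPos m c k) Q := by
  have hx1 : x ≤ 1 := hxo.trans L.o1.le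
  refine Few.trans L.pos (L.exs L.bG) ?_ h
  exact Few.up L.pos (f' := fun J F => ptr F J) (g' := vg x) (y' := fun _ F => F.W)
    (fun J F => ⟨fun x => x, fun _ => rfl⟩)
    (fun J F => vg_mono hbx hx1 J F) (fun J F => ⟨fun x => x, fun _ => rfl⟩)
    (lad_few_heights (f := fun J F => ptr F J) (y := fun _ F => F.W) L
      (fun J F => ⟨fun x => x, fun _ => rfl⟩) kn_W hx hbx hxo
      (p := fun l => sn l b) (fun i _ => by linarith [L.φ0]) hn tp)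

end lad

/-- **(NLQP)**, error `κn + 4 Cn φ`. -/
def NlqpStmt' : Prop :=
  ∀ k : ℕ, ∃ Cn : ℝ, 1 ≤ Cn ∧
  ∀ {m : ℕ} {S : PCl m} {c : ℕ → Fin m} {sn : ℕ → ℝ → ℝ} {G : Set ℝ} {b o φ : ℝ},
    LadP S c k sn G b o φ → (range (k + 1)).image c = univ.erase (c (k + 1)) →
    ∀ {w w₁ vq j x₄ pN pU M₁ M₂ U₁ U₂ Λ₁ E₁ κn : ℝ}, w ∈ G → j ∈ G → x₄ ∈ G →
    b ≤ w → w ≤ w₁ → w₁ ≤ j → j ≤ vq → j ≤ x₄ → x₄ ≤ o → x₄ + Cn * φ ≤ 1 →
    sn (k + 1) w - φ ≤ pN → sn k w - φ ≤ pU →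
    -- the digits
    0 ≤ M₁ → Λ₁ ≤ M₁ + Cn * φ → M₁ ≤ M₂ → 0 ≤ U₁ → sn k j ≤ U₁ + Cn * φ → U₁ ≤ U₂ →
    sn k x₄ ≤ U₂ + 2 * Cn * φ → U₂ + Cn * φ ≤ 1 → U₂ + Cn * φ ≤ sn k x₄ →
    M₂ + Cn * φ ≤ sn (k + 1) x₄ → M₂ + Cn * φ ≤ sn (k + 1) w + (1 - w) →
    U₂ + Cn * φ ≤ sn k w + (1 - w) →
    (∀ l ≤ k, M₂ + Cn * φ ≤ sn (k + 1) w + (1 - sn l w)) →
    (∀ l < k, U₂ + Cn * φ ≤ sn k w + (1 - sn l w)) →
    (∀ l < k, sn l x₄ + Cn * φ ≤ 1) →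
    -- the label of the last place
    (∃ rk : ℝ, rk < 1 ∧ 0 ≤ E₁ ∧
      AttG S ((range (k + 1)).image c) (c (k + 1)) w (sn (k + 1) w) rk E₁ ∧ M₂ + E₁ ≤ 1) →
    NlI S (c (k + 1)) w₁ vq Λ₁ M₂ κn → 0 ≤ κn → ∀ κ : ℝ, κn + 4 * Cn * φ ≤ κ →
    NlqI S c k w₁ j
      ((qJet m ((range (k + 1)).image c) (c (k + 1)) 0 w pN M₁).prod
        (qJet m ((range k).image c) (c k) 0 w pU U₁))
      ((qJet m ((range (k + 1)).image c) (c (k + 1)) 0 w pN M₂).prod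
        (qJet m ((range k).image c) (c k) 0 w pU U₂)) κ

set_option maxHeartbeats 8000000 in
/-- **(NLQP)** -/
theorem nlqp (hN : NuppStmt) : NlqpStmt' := by
  intro k
  have hk0 : (0 : ℝ) ≤ k := Nat.cast_nonneg k
  refine ⟨60 * ((k : ℝ) + 2), by linarith, ?_⟩
  intro m S c sn G b o φ L hI w w₁ vq j x₄ pN pU M₁ M₂ U₁ U₂ Λ₁ E₁ κn hw hj hx hbw hww hwj hjq
    hjx hxo hx1 hpN hpU hM0 hΛ hMM hU0 hU1 hUU hxU hU21 hU2x hM2x hM2w hU2w hM2l hU2l hx4l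
    hatt hnl hκn κ hκ
  obtain ⟨rk, hrk, hE, hatt, hME⟩ := hatt
  have Lu := L.lad
  have L1 := L.one hw
  have hφ := L.φ0
  have hkφ : 0 ≤ (k : ℝ) * φ := by positivity
  have hl2 : 0 < Real.log 2 := Real.log_pos one_lt_two
  have hl2' : Real.log 2 ≤ 7 / 10 := by
    have := Real.log_two_lt_d9
    linarith
  have hwx' : w ≤ x₄ := hww.trans (hwj.trans hjx)
  have hx11 : x₄ ≤ 1 := by linarith
  have hbx : b ≤ x₄ := hbw.trans hwx'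
  have hw1 : w ≤ 1 := hwx'.trans hx11
  obtain ⟨η, hη⟩ : ∃ η : ℝ, η = φ / 100 := ⟨_, rfl⟩
  have hη0 : 0 < η := by rw [hη]; positivity
  have hU20 : 0 ≤ U₂ := hU0.trans hUU
  have hM20 : 0 ≤ M₂ := hM0.trans hMM
  -- the exact positions
  obtain ⟨u₁, rd, hrd, hch⟩ := L.ch.ch w hw
  have hattu : AttG S ((range k).image c) (c k) w (sn k w) (rd k) 0 :=
    (hch.att k (Nat.zero_le _) (Nat.lt_succ_self k)).attG hw1 le_rfl
  have hrk1 : rd k < 1 := hch.r1 k (Nat.zero_le _) (Nat.lt_succ_self k)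
  have c1 := exj Lu le_rfl hw (pr := pU) (N := U₁) hrk1 le_rfl hattu hpU hU0 (by linarith)
    (by linarith) (fun l hl => by linarith [hU2l l hl]) η hη0
  have c2 := exj Lu le_rfl hw (pr := pU) (N := U₂) hrk1 le_rfl hattu hpU hU20 (by linarith)
    (by linarith) (fun l hl => by linarith [hU2l l hl]) η hη0
  have c3 := exj L1 le_rfl (Set.mem_singleton w) (pr := pN) (N := M₁) hrk hE hatt hpN hM0
    (by linarith) (by push_cast; linarith) (fun l hl => by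
      have := hM2l l (by omega)
      push_cast
      linarith) η hη0
  have c4 := exj L1 le_rfl (Set.mem_singleton w) (pr := pN) (N := M₂) hrk hE hatt hpN hM20
    hME (by push_cast; linarith) (fun l hl => by
      have := hM2l l (by omega)
      push_cast
      linarith) η hη0
  -- the record at `x₄`
  have hid : ∀ (J : ℕ) (F : Fam m J), ∃ χ : PtT F → PtT F, ∀ ω, ptr F J ω = χ (ptr F J ω) :=
    fun J F => ⟨fun x => x, fun _ => rfl⟩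
  obtain ⟨D, hD⟩ : ∃ D : ℝ, D = max (x₄ - w) (max (M₂ - sn (k + 1) w + 60 * φ)
    (U₂ - sn k w + 20 * φ)) := ⟨_, rfl⟩
  have hDx : x₄ - w ≤ D := by
    rw [hD]
    exact le_max_left _ _
  have hDM : M₂ - sn (k + 1) w + 60 * φ ≤ D := by
    rw [hD]
    exact (le_max_left _ _).trans (le_max_right _ _)
  have hDU : U₂ - sn k w + 20 * φ ≤ D := by
    rw [hD]
    exact (le_max_right _ _).trans (le_max_right _ _)
  have hDub : ∀ y : ℝ, x₄ - w + (50 * (k : ℝ) + 60) * φ ≤ y →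
      M₂ - sn (k + 1) w + 60 * φ + (50 * (k : ℝ) + 60) * φ ≤ y →
      U₂ - sn k w + 20 * φ + (50 * (k : ℝ) + 60) * φ ≤ y → D + (50 * (k : ℝ) + 60) * φ ≤ y := by
    intro y h1 h2 h3
    have : D ≤ y - (50 * (k : ℝ) + 60) * φ := by
      rw [hD]
      exact max_le (by linarith) (max_le (by linarith) (by linarith))
    linarith
  have hD1 : D + (50 * (k : ℝ) + 60) * φ ≤ 1 - w :=
    hDub _ (by linarith) (by linarith) (by linarith)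
  have hD2 : ∀ l < k, D + (50 * (k : ℝ) + 60) * φ ≤ 1 - sn l w := fun l hl => by
    have h1 := abs_le.1 (Lu.flat hl hw hx hbw (hwx'.trans hxo) hbx hxo)
    refine hDub _ ?_ ?_ ?_
    · linarith [hx4l l hl]
    · linarith [hM2l l hl.le]
    · linarith [hU2l l hl]
  obtain ⟨n, hn⟩ : ∃ n, n = nq k sn w D φ := ⟨_, rfl⟩
  have hst : Nst k sn w φ n := by
    rw [hn]
    exact nq_nst hφ (by linarith) hD1
  have htp : Tp k sn b φ n := by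
    rw [hn]
    exact nq_tp Lu hw hbw (hwx'.trans hxo) hD1 hD2
  have hnb : ∀ i < k, sn i x₄ + 20 * φ ≤ n i ∧ n i ≤ 1 := fun i hi => by
    have h1 := nq_bd Lu hw hx hbw hwx' hxo hDx hi
    have h2 := hD2 i hi
    rw [hn]
    exact ⟨h1.1, by linarith [h1.2]⟩
  have hnw : ∀ i < k, D ≤ n i - sn i w := fun i hi => by
    rw [hn]
    have h4 : (i : ℝ) + 1 ≤ k := by exact_mod_cast hi
    unfold nq
    nlinarith
  have hn4 : ∀ i < k, sn i x₄ ≤ n i ∧ n i ≤ 1 := fun i hi => by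
    have := hnb i hi
    exact ⟨by linarith [this.1], this.2⟩
  have nN : ∀ N : ℝ, N ≤ M₂ → Few S (fun J F => ptr F J) (vg x₄) (fun _ F => F.W) (qPos m c k)
      (qJet m ((range (k + 1)).image c) (c (k + 1)) 0 w pN N) := fun N hN2 =>
    few_pos_of Lu hx hbx hxo hn4 htp (hN L hid kn_W hw hx hbw hwx' hxo le_rfl hx11
      (fun i _ => by linarith) hpN hst (fun i hi => (hnb i hi).1) (by linarith)
      (fun i hi => by linarith [hnw i hi]))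
  have nU : ∀ N : ℝ, N ≤ U₂ → Few S (fun J F => ptr F J) (vg x₄) (fun _ F => F.W) (qPos m c k)
      (qJet m ((range k).image c) (c k) 0 w pU N) := fun N hN2 =>
    few_pos_of Lu hx hbx hxo hn4 htp (t_nup Lu hid kn_W hw hx hbw hwx' hxo le_rfl hx11
      (fun i _ => by linarith) hpU hst (fun i hi => (hnb i hi).1) (by linarith)
      (fun i hi => by linarith [hnw i hi]))
  obtain ⟨k1, hk1, e1, he1, H1⟩ := c1
  obtain ⟨k2, hk2, e2, he2, H2⟩ := c2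
  obtain ⟨k3, hk3, e3, he3, H3⟩ := c3
  obtain ⟨k4, hk4, e4, he4, H4⟩ := c4
  obtain ⟨e5, he5, H5⟩ := (nN M₁ hMM).mx L.pos η hη0
  obtain ⟨e6, he6, H6⟩ := (nN M₂ le_rfl).mx L.pos η hη0
  obtain ⟨e7, he7, H7⟩ := (nU U₁ hUU).mx L.pos η hη0
  obtain ⟨e8, he8, H8⟩ := (nU U₂ le_rfl).mx L.pos η hη0
  obtain ⟨k9, hk9, H9⟩ := hnl
  obtain ⟨ux, rx, -, hchx⟩ := L.ch.ch x₄ hx
  obtain ⟨uj, rj, -, hchj⟩ := L.ch.ch j hj
  have H10 := ful_at L.pos hchx.ful hη0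
  have H11 := ful_at L.pos hchj.ful hη0
  obtain ⟨κ₁, hκ₁, l1, l2, l3, l4, l9, lη⟩ : ∃ κ₁ : ℝ, 0 < κ₁ ∧ κ₁ ≤ k1 ∧ κ₁ ≤ k2 ∧ κ₁ ≤ k3 ∧
      κ₁ ≤ k4 ∧ κ₁ ≤ k9 ∧ κ₁ ≤ η / 2 := by
    refine ⟨min (min k1 k2) (min (min k3 k4) (min k9 (η / 2))), by positivity, ?_, ?_, ?_, ?_, ?_,
      ?_⟩ <;> simp only [min_le_iff, le_refl, true_or, or_true]
  obtain ⟨e₀, he₀, f1, f2, f3, f4, f5, f6, f7, f8⟩ : ∃ e₀ : ℝ, 0 < e₀ ∧ e₀ ≤ e1 ∧ e₀ ≤ e2 ∧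
      e₀ ≤ e3 ∧ e₀ ≤ e4 ∧ e₀ ≤ e5 ∧ e₀ ≤ e6 ∧ e₀ ≤ e7 ∧ e₀ ≤ e8 := by
    refine ⟨min (min (min e1 e2) (min e3 e4)) (min (min e5 e6) (min e7 e8)), by positivity, ?_,
      ?_, ?_, ?_, ?_, ?_, ?_, ?_⟩ <;> simp only [min_le_iff, le_refl, true_or, or_true]
  obtain ⟨J₁, hJ₁⟩ := exists_nat_gt (1 / η)
  refine ⟨κ₁, hκ₁, e₀, he₀, fun K => ?_⟩
  refine Bas.mono J₁ ((((H1 K).and (H2 K)).and ((H3 K).and (H4 K))).and
    ((((H5 K).and (H6 K)).and ((H7 K).and (H8 K))).and ((H9.and H10).and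
      (H11.and (pos_bas L.pos))))) ?_
  rintro J hJ F A ⟨⟨⟨H1, H2⟩, H3, H4⟩, ⟨⟨H5, H6⟩, H7, H8⟩, ⟨H9, H10⟩, H11, hA⟩ V₁ zw V₂ Rj hzw
    hRj v₁ v₂ hv₁ hv₂
  have hcl := isLaw_cond F.isLaw hA
  have h0 := hcl.nonneg
  have hJ0 : (0 : ℝ) ≤ J := Nat.cast_nonneg J
  have hηJ : 1 ≤ η * J := by
    have h1 : 1 / η < J := hJ₁.trans_le (by exact_mod_cast hJ)
    rw [div_lt_iff₀ hη0] at h1
    linarith
  have hkJ : κ₁ * J ≤ η / 2 * J := mul_le_mul_of_nonneg_right lη hJ0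
  have hj1 : j ≤ 1 := hjx.trans hx11
  have hw₁1 : w₁ ≤ 1 := hwj.trans hj1
  -- the canonical records
  have zc : Mx (fun J F => ptr F J) (vg w) κ₁ F A (cR F A w) := mx_cR hA w hκ₁.le
  have zq : Mx (fun J F => ptr F J) (vg vq) κ₁ F A (cR F A vq) := mx_cR hA vq hκ₁.le
  have z4 : Mx (fun J F => ptr F J) (vg x₄) κ₁ F A (cR F A x₄) := mx_cR hA x₄ hκ₁.le
  have d1 : CH (Pool.Agent.H49.Ent.cond F.p A True) (cR F A w) zw ≤ κ₁ * J :=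
    mx_before hzw hww hw₁1 zc.1
  have d2 : CH (Pool.Agent.H49.Ent.cond F.p A True) (cR F A w) Rj ≤ κ₁ * J :=
    mx_before hRj (hww.trans hwj) hj1 zc.1
  have d3 : CH (Pool.Agent.H49.Ent.cond F.p A True) zw (cR F A x₄) ≤ κ₁ * J :=
    mx_before z4 (hwj.trans hjx) hx11 hzw.1
  have d4 : CH (Pool.Agent.H49.Ent.cond F.p A True) Rj (cR F A vq) ≤ κ₁ * J := by
    obtain ⟨χ, hχ⟩ := vg_up hjq J F
    exact zq.2 _ _ (hRj.1.mono ⟨fun x => x, fun _ _ => rfl⟩ ⟨χ, fun ω _ => hχ ω⟩)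
  -- the heights
  obtain ⟨N1, hN1⟩ : ∃ N1 : F.Ω → ℤ, N1 = fun ω => (v₁ ω).1 := ⟨_, rfl⟩
  obtain ⟨U1, hU1'⟩ : ∃ U1 : F.Ω → ℤ, U1 = fun ω => (v₁ ω).2 := ⟨_, rfl⟩
  obtain ⟨N2, hN2⟩ : ∃ N2 : F.Ω → ℤ, N2 = fun ω => (v₂ ω).1 := ⟨_, rfl⟩
  obtain ⟨U2, hU2'⟩ : ∃ U2 : F.Ω → ℤ, U2 = fun ω => (v₂ ω).2 := ⟨_, rfl⟩
  have qN1 : (qJet m ((range (k + 1)).image c) (c (k + 1)) 0 w pN M₁).P K e₀ J F A N1 := by
    rw [hN1]
    exact hv₁.1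
  have qU1 : (qJet m ((range k).image c) (c k) 0 w pU U₁).P K e₀ J F A U1 := by
    rw [hU1']
    exact hv₁.2
  have qN2 : (qJet m ((range (k + 1)).image c) (c (k + 1)) 0 w pN M₂).P K e₀ J F A N2 := by
    rw [hN2]
    exact hv₂.1
  have qU2 : (qJet m ((range k).image c) (c k) 0 w pU U₂).P K e₀ J F A U2 := by
    rw [hU2']
    exact hv₂.2
  -- the entropies
  have a1 := (H1 _ (cR F A w) (zc.le' l1) U1 ((qJet m _ _ _ _ _ _).mono le_rfl f1 qU1)).2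
  have a2 := H2 _ (cR F A w) (zc.le' l2) U2 ((qJet m _ _ _ _ _ _).mono le_rfl f2 qU2)
  have a3 := H3 _ (cR F A w) (zc.le' l3) N1 ((qJet m _ _ _ _ _ _).mono le_rfl f3 qN1)
  have a4 := H4 _ (cR F A w) (zc.le' l4) N2 ((qJet m _ _ _ _ _ _).mono le_rfl f4 qN2)
  obtain ⟨XV, hXV⟩ : ∃ XV : F.Ω → Fin k → ℤ, XV = fun ω => fun l : Fin k => F.X J ω (c l) :=
    ⟨_, rfl⟩
  obtain ⟨XA, hXA⟩ : ∃ XA : F.Ω → Fin (k + 1) → ℤ,
    XA = fun ω => fun l : Fin (k + 1) => F.X J ω (c l) := ⟨_, rfl⟩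
  have a5 := H5 _ (cR F A x₄) (z4.le' lη) XV N1 (by rw [hXV]; exact fun ω _ => rfl)
    ((qJet m _ _ _ _ _ _).mono le_rfl f5 qN1)
  have a6 := H6 _ (cR F A x₄) (z4.le' lη) XV N2 (by rw [hXV]; exact fun ω _ => rfl)
    ((qJet m _ _ _ _ _ _).mono le_rfl f6 qN2)
  have a7 := H7 _ (cR F A x₄) (z4.le' lη) XV U1 (by rw [hXV]; exact fun ω _ => rfl)
    ((qJet m _ _ _ _ _ _).mono le_rfl f7 qU1)
  have a8 := H8 _ (cR F A x₄) (z4.le' lη) XV U2 (by rw [hXV]; exact fun ω _ => rfl)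
    ((qJet m _ _ _ _ _ _).mono le_rfl f8 qU2)
  have a9 := H9 V₁ zw _ (cR F A vq) (hzw.le' l9) (zq.le' l9)
  have a10 : ((1 - sn k x₄) - η) * Real.log 2 * J ≤ CH (Pool.Agent.H49.Ent.cond F.p A True)
      (fun ω => F.X J ω (c k)) (fun ω => (XV ω, (cR F A x₄ ω, F.W ω))) := by
    rw [hXV]
    exact H10 _ (cR F A x₄) z4.1
  have a11 : ((1 - sn k j) - η) * Real.log 2 * J ≤ CH (Pool.Agent.H49.Ent.cond F.p A True)
      (fun ω => F.X J ω (c k)) (fun ω => (XV ω, (Rj ω, F.W ω))) := by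
    rw [hXV]
    exact H11 _ Rj hRj.1
  -- the digits of the last place
  have hmore : CH (Pool.Agent.H49.Ent.cond F.p A True) (fun ω => F.X ⌊Λ₁ * J⌋₊ ω (c (k + 1)))
      (fun ω => (F.X ⌊M₁ * J⌋₊ ω (c (k + 1)), (N1 ω, (XA ω, (zw ω, F.W ω))))) ≤
      60 * ((k : ℝ) + 2) * φ * J * (7 / 10) + η * J := by
    have hC0 : 0 ≤ 60 * ((k : ℝ) + 2) * φ * J := by positivity
    rcases le_total ⌊Λ₁ * (J : ℝ)⌋₊ ⌊M₁ * (J : ℝ)⌋₊ with h | h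
    · rw [CH_eq_zero h0 fun ω ω' _ _ hh => X_det F (c (k + 1)) h (Prod.ext_iff.mp hh).1]
      linarith
    · have h1 := X_more hcl h (c (k + 1)) (fun ω => (N1 ω, (XA ω, (zw ω, F.W ω))))
      refine h1.trans ?_
      have g1 : (⌊M₁ * (J : ℝ)⌋₊ : ℝ) ≤ ⌊Λ₁ * (J : ℝ)⌋₊ := by exact_mod_cast h
      have g2 : M₁ * (J : ℝ) ≤ (⌊M₁ * (J : ℝ)⌋₊ : ℝ) + 1 := (Nat.lt_floor_add_one _).le
      have g3 : (⌊Λ₁ * (J : ℝ)⌋₊ : ℝ) ≤ (M₁ + 60 * ((k : ℝ) + 2) * φ) * J := by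
        refine (Nat.cast_le.2 (Nat.floor_le_floor (mul_le_mul_of_nonneg_right hΛ hJ0))).trans ?_
        exact Nat.floor_le (by positivity)
      have g4 : ((⌊Λ₁ * (J : ℝ)⌋₊ : ℝ) - ⌊M₁ * (J : ℝ)⌋₊) * Real.log 2 ≤
          ((⌊Λ₁ * (J : ℝ)⌋₊ : ℝ) - ⌊M₁ * (J : ℝ)⌋₊) * (7 / 10) :=
        mul_le_mul_of_nonneg_left hl2' (by linarith)
      nlinarith
  have hnl := nl_asm h0 (N1 := N1) (N2 := N2) (XJ := XA)
    (C := fun ω => ceI ((range (k + 1)).image c) (fun _ => J) (F.x ω)) (zw := zw)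
    (zc := cR F A w) (zv := cR F A vq) (Rj := Rj) (Y := F.W)
    (Xo := fun ω => F.X ⌊M₂ * J⌋₊ ω (c (k + 1))) (Xv := fun ω => F.X ⌊Λ₁ * J⌋₊ ω (c (k + 1)))
    (Xn := fun ω => F.X ⌊M₁ * J⌋₊ ω (c (k + 1))) (a := κ₁ * J) (e := η * J)
    (d := 60 * ((k : ℝ) + 2) * φ * J * (7 / 10) + η * J) (κn := κn * J)
    (by rw [hXA]; exact det_cei rfl _) (by rw [hXA]; exact det_cei' rfl _) d1 d2 d4 a4.1 a4.2
    a3.2 hmore (by
      rw [hI]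
      exact a9)
  -- the digits of `c k`
  have b1 : (⌊U₁ * (J : ℝ)⌋₊ : ℝ) ≤ U₁ * J := Nat.floor_le (by positivity)
  have b2 : U₁ * (J : ℝ) ≤ (⌊U₁ * (J : ℝ)⌋₊ : ℝ) + 1 := (Nat.lt_floor_add_one _).le
  have b3 : (⌊U₂ * (J : ℝ)⌋₊ : ℝ) ≤ U₂ * J := Nat.floor_le (by positivity)
  have b4 : U₂ * (J : ℝ) ≤ (⌊U₂ * (J : ℝ)⌋₊ : ℝ) + 1 := (Nat.lt_floor_add_one _).le
  have b5 : ⌊U₁ * (J : ℝ)⌋₊ ≤ ⌊U₂ * (J : ℝ)⌋₊ :=
    Nat.floor_le_floor (mul_le_mul_of_nonneg_right hUU hJ0)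
  have b6 : ⌊U₂ * (J : ℝ)⌋₊ ≤ J := floor_le (by linarith) J
  have m1 := X_more hcl b5 (c k) (fun _ : F.Ω => ())
  have m2 := X_more hcl b6 (c k) (fun _ : F.Ω => ())
  have key := nlqp_asm h0 (N1 := N1) (N2 := N2) (U1 := U1) (U2 := U2)
    (XU := fun ω => F.X J ω (c k)) (X1 := fun ω => F.X ⌊U₁ * J⌋₊ ω (c k))
    (X2 := fun ω => F.X ⌊U₂ * J⌋₊ ω (c k)) (XV := XV)
    (CV := fun ω => ceI ((range k).image c) (fun _ => J) (F.x ω)) (XA := XA) (zw := zw)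
    (zc := cR F A w) (Rj := Rj) (z4 := cR F A x₄) (Y := F.W) (a := κ₁ * J) (e := η * J)
    (by rw [hXV]; exact det_cei rfl _)
    (by
      intro ω ω' _ _ hh
      rw [hXV] at hh
      rw [hXA]
      have h1 := Prod.ext_iff.mp hh
      refine funext fun l => ?_
      refine Fin.lastCases h1.1 (fun l => ?_) l
      exact congrFun h1.2 l)
    (by
      intro ω ω' _ _ hh
      rw [hXA] at hh
      rw [hXV]
      exact Prod.ext (congrFun hh (Fin.last k)) (funext fun l => congrFun hh l.castSucc))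
    (fun ω ω' _ _ hh => X_det F (c k) b6 hh) d1 d2 d3 a1 a2.1 a2.2 m1 m2 a10 a11 a5 a6 a7 a8 hnl
  have e1 : CH (Pool.Agent.H49.Ent.cond F.p A True) v₂ (fun ω => (v₁ ω,
      ((fun l : Fin k => F.X J ω (c l)), (zw ω, F.W ω)))) =
      CH (Pool.Agent.H49.Ent.cond F.p A True) (fun ω => (N2 ω, U2 ω))
        (fun ω => ((N1 ω, U1 ω), (XV ω, (zw ω, F.W ω)))) := by
    rw [hN1, hN2, hU1', hU2', hXV]
  have e2 : CH (Pool.Agent.H49.Ent.cond F.p A True) v₂ (fun ω =>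
      ((fun l : Fin k => F.X J ω (c l)), (Rj ω, F.W ω))) =
      CH (Pool.Agent.H49.Ent.cond F.p A True) (fun ω => (N2 ω, U2 ω))
        (fun ω => (XV ω, (Rj ω, F.W ω))) := by
    rw [hN2, hU2', hXV]
  rw [e1, e2]
  refine key.trans (add_le_add le_rfl ?_)
  have t1 : (κn + 4 * (60 * ((k : ℝ) + 2)) * φ) * J ≤ κ * J := mul_le_mul_of_nonneg_right hκ hJ0
  have t2 : sn k j * J ≤ (U₁ + 60 * ((k : ℝ) + 2) * φ) * J := mul_le_mul_of_nonneg_right hU1 hJ0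
  have t3 : sn k x₄ * J ≤ (U₂ + 2 * (60 * ((k : ℝ) + 2)) * φ) * J :=
    mul_le_mul_of_nonneg_right hxU hJ0
  have hC0 : 0 ≤ 60 * ((k : ℝ) + 2) * φ * J := by positivity
  have hφJ : φ * J = 100 * (η * J) := by rw [hη]; ring
  have hkφJ : 0 ≤ (k : ℝ) * (φ * J) := by positivity
  have t4 : ((⌊U₂ * (J : ℝ)⌋₊ : ℝ) - ⌊U₁ * (J : ℝ)⌋₊) + 2 * ((J : ℝ) - ⌊U₂ * (J : ℝ)⌋₊) -
      ((1 - sn k x₄) - η) * J - ((1 - sn k j) - η) * J ≤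
      3 * (60 * ((k : ℝ) + 2) * φ * J) + 2 + 2 * (η * J) := by
    linarith
  have t5 := (mul_le_mul_of_nonneg_right t4 hl2.le).trans
    (mul_le_mul_of_nonneg_left hl2' (show 0 ≤ 3 * (60 * ((k : ℝ) + 2) * φ * J) + 2 + 2 * (η * J)
      by linarith))
  have t6 : ((⌊U₂ * (J : ℝ)⌋₊ : ℝ) - ⌊U₁ * (J : ℝ)⌋₊) * Real.log 2 +
      2 * (((J : ℝ) - ⌊U₂ * (J : ℝ)⌋₊) * Real.log 2) - ((1 - sn k x₄) - η) * Real.log 2 * J -
      ((1 - sn k j) - η) * Real.log 2 * J =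
      (((⌊U₂ * (J : ℝ)⌋₊ : ℝ) - ⌊U₁ * (J : ℝ)⌋₊) + 2 * ((J : ℝ) - ⌊U₂ * (J : ℝ)⌋₊) -
      ((1 - sn k x₄) - η) * J - ((1 - sn k j) - η) * J) * Real.log 2 := by ring
  rw [t6]
  have t7 : 60 * ((k : ℝ) + 2) * φ * J = 60 * ((k : ℝ) * (φ * J)) + 12000 * (η * J) := by
    linear_combination 120 * hφJ
  linarith

end Pool.V0Q
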